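import Pool.Agent.Helper33.PL.IntLow

/-! The direct method: assembly of the abstract existence theorem. -/

set_option autoImplicit false

open MeasureTheory Set Filter Topology

namespace Pool.Agent.Helper33.PL

open Pool.Agent.Helper82.PL

theorem isAdm_zero : IsAdm (fun _ => 0) := by
  refine ⟨⟨0, LipschitzWith.const 0⟩, HasCompactSupport.zero, ?_⟩
  have h : tsupport (fun _ : E2 => (0 : ℝ)) = ∅ := by
    rw [tsupport_eq_empty_iff]
    rfl
  rw [h]
  exact empty_subset _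

theorem exist_ok (hL : stmtLow) (hM : stmtMid) (hEL : stmtEL) (hLim : stmtLim)
    (hP : stmtPass) : stmtExist := by
  intro b0 V C0 hB lo up hlo hup hproj
  have hC0 := C0_nonneg hB
  -- the functional is bounded below
  obtain ⟨B, hBd⟩ := hL b0 V C0 hB
  have bdw : ∀ w : E2 → ℝ, (∀ x ∈ D, lo x ≤ w x ∧ w x ≤ up x) → ∀ x ∈ D, |w x| ≤ C0 := by
    intro w hw x hx
    rw [abs_le]
    exact ⟨(hlo x hx).trans (hw x hx).1, (hw x hx).2.trans (hup x hx)⟩
  have hbelow : ∀ w, IsAdm w → -B ≤ J b0 V w := by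
    intro w aw
    obtain ⟨w', aw', hw', hJ⟩ := hproj w aw
    have h1 := hBd w' aw' (bdw w' hw')
    have h2 : 0 ≤ ∫ x in D, Real.exp (4 * (b0 x + w' x)) * ‖gradient b0 x + gradient w' x‖ ^ 4 :=
      integral_nonneg fun x => by positivity
    linarith
  set S : Set ℝ := {r | ∃ w, IsAdm w ∧ J b0 V w = r} with hS
  have hSne : S.Nonempty := ⟨_, _, isAdm_zero, rfl⟩
  have hSbd : BddBelow S := ⟨-B, by
    rintro r ⟨w, aw, rfl⟩
    exact hbelow w aw⟩
  set j := sInf S with hj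
  have hjle : ∀ w, IsAdm w → j ≤ J b0 V w := fun w aw => csInf_le hSbd ⟨w, aw, rfl⟩
  have hex : ∀ n : ℕ, ∃ w, IsAdm w ∧ (∀ x ∈ D, lo x ≤ w x ∧ w x ≤ up x) ∧
      J b0 V w < j + 1 / ((n : ℝ) + 1) := by
    intro n
    obtain ⟨r, ⟨w, aw, rfl⟩, hr⟩ := exists_lt_of_csInf_lt hSne
      (lt_add_of_pos_right j (by positivity : (0 : ℝ) < 1 / ((n : ℝ) + 1)))
    obtain ⟨w', aw', hw', hJ⟩ := hproj w aw
    exact ⟨w', aw', hw', hJ.trans_lt hr⟩
  choose w aw hw hJw using hex
  have hbd : ∀ n, ∀ x ∈ D, |w n x| ≤ C0 := fun n => bdw (w n) (hw n)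
  have htend : Tendsto (fun n => J b0 V (w n)) atTop (𝓝 j) := by
    have h1 : Tendsto (fun n : ℕ => j + 1 / ((n : ℝ) + 1)) atTop (𝓝 (j + 0)) :=
      tendsto_const_nhds.add tendsto_one_div_add_atTop_nhds_zero_nat
    rw [add_zero] at h1
    exact tendsto_of_tendsto_of_tendsto_of_le_of_le tendsto_const_nhds h1
      (fun n => hjle _ (aw n)) (fun n => (hJw n).le)
  -- Cauchy property
  obtain ⟨c, hc, hmid⟩ := hM b0 V C0 hB
  have hcau : ∀ ε > 0, ∃ N, ∀ n ≥ N, ∀ m ≥ N,
      ∫ x, ‖gradient (w n) x - gradient (w m) x‖ ^ 4 < ε := by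
    intro ε hε
    have h1 : ∀ᶠ n in atTop, J b0 V (w n) < j + c * ε :=
      htend.eventually (gt_mem_nhds (lt_add_of_pos_right j (by positivity)))
    obtain ⟨N, hN⟩ := eventually_atTop.1 h1
    refine ⟨N, fun n hn m hm => ?_⟩
    obtain ⟨w', aw', h'⟩ := hmid (w n) (w m) (aw n) (aw m) (hbd n) (hbd m)
    have h2 := hjle w' aw'
    have h3 := hN n hn
    have h4 := hN m hm
    have h5 : c * ∫ x, ‖gradient (w n) x - gradient (w m) x‖ ^ 4 < c * ε := by linarith
    exact lt_of_mul_lt_mul_left h5 hc.le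
  obtain ⟨wl, G, hwl, hGm, hGi, hunif, hG4⟩ := hLim w aw hcau
  have hpt : ∀ x, Tendsto (fun n => w n x) atTop (𝓝 (wl x)) := fun x =>
    (hunif {x} isCompact_singleton).tendsto_at (mem_singleton x)
  have hlow : ∀ x ∈ D, lo x ≤ wl x := fun x hx => ge_of_tendsto' (hpt x) fun n => (hw n x hx).1
  have hupp : ∀ x ∈ D, wl x ≤ up x := fun x hx => le_of_tendsto' (hpt x) fun n => (hw n x hx).2
  have hwlb : ∀ x ∈ D, |wl x| ≤ C0 := bdw wl fun x hx => ⟨hlow x hx, hupp x hx⟩
  have hvc : ContinuousOn (fun x => Real.exp (b0 x + wl x)) D :=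
    Real.continuous_exp.comp_continuousOn (hB.c1.continuousOn.add hwl.continuousOn)
  have hvle : ∀ x ∈ D, Real.exp (b0 x + wl x) ≤ Real.exp (2 * C0) := by
    intro x hx
    refine Real.exp_le_exp.2 ?_
    have h1 := (abs_le.1 (hB.bd x hx)).2
    have h2 := (abs_le.1 (hwlb x hx)).2
    linarith
  have hgb : ∀ x ∈ D, ‖gradient b0 x‖ ≤ C0 := by
    intro x hx
    have hx1 : 1 < ‖x‖ := hx
    refine (hB.gd x hx).trans ?_
    exact div_le_self hC0 hx1.le
  have hgm : AEStronglyMeasurable (fun x => Real.exp (b0 x + wl x) • (gradient b0 x + G x))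
      (volume.restrict D) := by
    refine (hvc.aestronglyMeasurable measurableSet_D).smul ?_
    exact (measurable_gradient b0).aestronglyMeasurable.add hGm.restrict
  have hlc : IsLocallyClosed D := isOpen_D.isLocallyClosed
  refine ⟨fun x => Real.exp (b0 x + wl x),
    fun x => Real.exp (b0 x + wl x) • (gradient b0 x + G x), hvc, ?_, ?_, ?_, ?_⟩
  · intro x hx
    refine ⟨Real.exp_le_exp.2 ?_, Real.exp_le_exp.2 ?_⟩
    · linarith [hlow x hx]
    · linarith [hupp x hx]
  · rw [locallyIntegrableOn_iff hlc]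
    intro K hKD hK
    have hfin : (volume : Measure E2) K ≠ ⊤ := hK.measure_lt_top.ne
    have hdom : IntegrableOn (fun x => Real.exp (2 * C0) * ((C0 + 1) + ‖G x‖ ^ 4)) K :=
      Integrable.const_mul ((integrableOn_const hfin).add hGi.integrableOn) _
    refine hdom.mono' (hgm.mono_measure (Measure.restrict_mono hKD le_rfl)) ?_
    filter_upwards [ae_restrict_mem hK.measurableSet] with x hx
    have hxD := hKD hx
    rw [norm_smul, Real.norm_eq_abs, Real.abs_exp]
    refine mul_le_mul (hvle x hxD) ?_ (norm_nonneg _) (Real.exp_pos _).le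
    have h1 : ‖G x‖ ≤ 1 + ‖G x‖ ^ 4 := by
      rcases le_total ‖G x‖ 1 with h | h
      · have : 0 ≤ ‖G x‖ ^ 4 := by positivity
        linarith
      · have : ‖G x‖ ^ 1 ≤ ‖G x‖ ^ 4 := pow_le_pow_right₀ h (by norm_num)
        rw [pow_one] at this
        linarith
    calc ‖gradient b0 x + G x‖ ≤ ‖gradient b0 x‖ + ‖G x‖ := norm_add_le _ _
      _ ≤ C0 + (1 + ‖G x‖ ^ 4) := add_le_add (hgb x hxD) h1
      _ = _ := by ring
  · rw [locallyIntegrableOn_iff hlc]
    intro K hKD hK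
    have hfin : (volume : Measure E2) K ≠ ⊤ := hK.measure_lt_top.ne
    have hdom : IntegrableOn (fun x => Real.exp (2 * C0) ^ 4 * (8 * (C0 ^ 4 + ‖G x‖ ^ 4))) K :=
      Integrable.const_mul (Integrable.const_mul
        ((integrableOn_const hfin).add hGi.integrableOn) _) _
    refine hdom.mono' ((hgm.mono_measure (Measure.restrict_mono hKD le_rfl)).norm.pow 4) ?_
    filter_upwards [ae_restrict_mem hK.measurableSet] with x hx
    have hxD := hKD hx
    rw [norm_pow, norm_norm, norm_smul, Real.norm_eq_abs, Real.abs_exp, mul_pow]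
    refine mul_le_mul (pow_le_pow_left₀ (Real.exp_pos _).le (hvle x hxD) 4) ?_
      (by positivity) (by positivity)
    calc ‖gradient b0 x + G x‖ ^ 4 ≤ (C0 + ‖G x‖) ^ 4 :=
          pow_le_pow_left₀ (norm_nonneg _)
            ((norm_add_le _ _).trans (add_le_add (hgb x hxD) le_rfl)) 4
      _ ≤ _ := pow4_add_le _ _ hC0 (norm_nonneg _)
  · intro φ hφ hφc hφD
    obtain ⟨hlim, hweak⟩ := hP b0 V C0 hB w aw wl G hwl hGm hGi hunif hG4 φ hφ hφc hφD
    have h0 := hEL b0 V C0 hB j hjle w aw hbd htend φ hφ hφc hφD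
    refine ⟨hweak, ?_⟩
    have h1 := tendsto_nhds_unique hlim h0
    rw [← h1]
    refine integral_congr_ae (ae_of_all _ fun x => ?_)
    simp only
    rw [norm_smul, Real.norm_eq_abs, Real.abs_exp, inner_smul_left]
    simp only [conj_trivial]
    ring

end Pool.Agent.Helper33.PL
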