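import Pool.Agent.Helper33.PL.Mid

/-! Integrability of the energy density and lower bound of the energy. -/

set_option autoImplicit false

open MeasureTheory Set Filter Topology

namespace Pool.Agent.Helper33.PL

open Pool.Agent.Helper82.PL

theorem measurable_gradient (w : E2 → ℝ) : Measurable (gradient w) :=
  (InnerProductSpace.toDual ℝ E2).symm.continuous.measurable.comp (measurable_fderiv ℝ w)

theorem norm_gradient_le_of_lipschitz {w : E2 → ℝ} {K : NNReal} (h : LipschitzWith K w) (x : E2) :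
    ‖gradient w x‖ ≤ K := by
  unfold gradient
  rw [LinearIsometryEquiv.norm_map]
  exact norm_fderiv_le_of_lipschitz ℝ h

/-- a power of the gradient of a Lipschitz function with compact support is integrable -/
theorem integrable_norm_gradient_pow {w : E2 → ℝ} {K : NNReal} (h : LipschitzWith K w)
    (hc : HasCompactSupport w) (n : ℕ) (hn : n ≠ 0) :
    Integrable (fun x => ‖gradient w x‖ ^ n) := by
  have hs : Function.support (fun x => ‖gradient w x‖ ^ n) ⊆ tsupport w := by
    intro x hx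
    by_contra hcon
    rw [Function.mem_support] at hx
    apply hx
    rw [gradient_zero_of_notMem hcon, norm_zero, zero_pow hn]
  rw [← integrableOn_iff_integrable_of_support_subset hs]
  have hfin : (volume : Measure E2) (tsupport w) ≠ ⊤ := hc.isCompact.measure_lt_top.ne
  refine Measure.integrableOn_of_bounded (M := (K : ℝ) ^ n) hfin ?_ ?_
  · exact ((measurable_gradient w).norm.pow_const n).aestronglyMeasurable
  · refine ae_of_all _ fun x => ?_
    rw [norm_pow, norm_norm]
    exact pow_le_pow_left₀ (norm_nonneg _) (norm_gradient_le_of_lipschitz h x) n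

theorem integrableOn_norm_inv : IntegrableOn (fun x : E2 => 1 / ‖x‖ ^ 4) D := by
  have h1 : Integrable (fun x : E2 => (1 + ‖x‖) ^ (-(4 : ℝ))) :=
    integrable_one_add_norm (by rw [finrank_euclideanSpace, Fintype.card_fin]; norm_num)
  refine (h1.const_mul 16).integrableOn.mono' ?_ ?_
  · exact (measurable_const.div (measurable_norm.pow_const 4)).aestronglyMeasurable
  · filter_upwards [ae_restrict_mem measurableSet_D] with x hx
    have hx1 : 1 < ‖x‖ := hx
    rw [Real.norm_eq_abs, abs_of_nonneg (by positivity)]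
    rw [Real.rpow_neg (by positivity)]
    have e : (1 + ‖x‖) ^ (4 : ℝ) = (1 + ‖x‖) ^ 4 := by
      rw [← Real.rpow_natCast]
      norm_num
    rw [e, div_le_iff₀ (by positivity)]
    have h2 : (1 + ‖x‖) ^ 4 ≤ (2 * ‖x‖) ^ 4 := pow_le_pow_left₀ (by positivity) (by linarith) 4
    rw [mul_pow] at h2
    have h3 : 0 < (1 + ‖x‖) ^ 4 := by positivity
    calc (1 : ℝ) = ((1 + ‖x‖) ^ 4)⁻¹ * (1 + ‖x‖) ^ 4 := (inv_mul_cancel₀ h3.ne').symm
      _ ≤ ((1 + ‖x‖) ^ 4)⁻¹ * (2 ^ 4 * ‖x‖ ^ 4) :=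
        mul_le_mul_of_nonneg_left h2 (by positivity)
      _ = 16 * ((1 + ‖x‖) ^ 4)⁻¹ * ‖x‖ ^ 4 := by ring

theorem D_nonempty : D.Nonempty := by
  refine ⟨EuclideanSpace.single 0 2, ?_⟩
  show 1 < ‖_‖
  rw [PiLp.norm_single]
  norm_num

theorem C0_nonneg {b0 V : E2 → ℝ} {C0 : ℝ} (hB : Base b0 V C0) : 0 ≤ C0 := by
  obtain ⟨x, hx⟩ := D_nonempty
  exact (abs_nonneg _).trans (hB.bd x hx)

theorem pow4_add_le (a b : ℝ) (ha : 0 ≤ a) (hb : 0 ≤ b) : (a + b) ^ 4 ≤ 8 * (a ^ 4 + b ^ 4) := by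
  nlinarith [sq_nonneg (a - b), sq_nonneg (a + b), sq_nonneg (a ^ 2 - b ^ 2),
    mul_nonneg ha hb, sq_nonneg (a * b), mul_nonneg (mul_nonneg ha hb) (sq_nonneg (a - b)),
    mul_nonneg (sq_nonneg a) (sq_nonneg (a - b)), mul_nonneg (sq_nonneg b) (sq_nonneg (a - b))]

/-- gradient of the background is of order 4 integrable -/
theorem integrableOn_base {b0 V : E2 → ℝ} {C0 : ℝ} (hB : Base b0 V C0) :
    IntegrableOn (fun x => ‖gradient b0 x‖ ^ 4) D := by
  refine (integrableOn_norm_inv.const_mul (C0 ^ 4)).mono' ?_ ?_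
  · exact ((measurable_gradient b0).norm.pow_const 4).aestronglyMeasurable
  · filter_upwards [ae_restrict_mem measurableSet_D] with x hx
    rw [norm_pow, norm_norm]
    calc ‖gradient b0 x‖ ^ 4 ≤ (C0 / ‖x‖) ^ 4 :=
          pow_le_pow_left₀ (norm_nonneg _) (hB.gd x hx) 4
      _ = C0 ^ 4 * (1 / ‖x‖ ^ 4) := by rw [div_pow]; ring

theorem aesm_exp {b0 V : E2 → ℝ} {C0 : ℝ} (hB : Base b0 V C0) {w : E2 → ℝ} (hw : Continuous w) :
    AEStronglyMeasurable (fun x => Real.exp (4 * (b0 x + w x))) (volume.restrict D) := by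
  refine ContinuousOn.aestronglyMeasurable ?_ measurableSet_D
  exact Real.continuous_exp.comp_continuousOn
    (continuousOn_const.mul (hB.c1.continuousOn.add hw.continuousOn))

theorem int_ok : stmtInt := by
  intro b0 V C0 hB w hw
  obtain ⟨⟨K, hK⟩, hc, ht⟩ := hw
  have g4 := integrable_norm_gradient_pow hK hc 4 (by norm_num)
  have hcont : Continuous w := hK.continuous
  obtain ⟨M, hM⟩ := hcont.bounded_above_of_compact_support hc
  have hC0 := C0_nonneg hB
  have hexp : ∀ x ∈ D, ‖Real.exp (4 * (b0 x + w x))‖ ≤ Real.exp (4 * (C0 + M)) := by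
    intro x hx
    rw [Real.norm_eq_abs, Real.abs_exp]
    refine Real.exp_le_exp.2 ?_
    have h1 := (abs_le.1 (hB.bd x hx)).2
    have h2 := (abs_le.1 (hM x)).2
    linarith
  have hm := aesm_exp hB hcont
  have hexp' : ∀ᵐ x ∂(volume.restrict D), ‖Real.exp (4 * (b0 x + w x))‖ ≤
      Real.exp (4 * (C0 + M)) := by
    filter_upwards [ae_restrict_mem measurableSet_D] with x hx using hexp x hx
  refine ⟨g4, ?_, ?_⟩
  · refine Integrable.bdd_mul (c := Real.exp (4 * (C0 + M))) ?_ hm hexp'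
    have hsum : IntegrableOn (fun x => 8 * (‖gradient b0 x‖ ^ 4 + ‖gradient w x‖ ^ 4)) D :=
      ((integrableOn_base hB).add g4.integrableOn).const_mul 8
    refine hsum.mono' ?_ ?_
    · exact (((measurable_gradient b0).add (measurable_gradient w)).norm.pow_const
        4).aestronglyMeasurable
    · refine ae_of_all _ fun x => ?_
      rw [norm_pow, norm_norm]
      calc ‖gradient b0 x + gradient w x‖ ^ 4 ≤ (‖gradient b0 x‖ + ‖gradient w x‖) ^ 4 :=
            pow_le_pow_left₀ (norm_nonneg _) (norm_add_le _ _) 4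
        _ ≤ _ := pow4_add_le _ _ (norm_nonneg _) (norm_nonneg _)
  · refine Integrable.bdd_mul (c := Real.exp (4 * (C0 + M))) ?_ hm hexp'
    refine (integrableOn_norm_inv.const_mul C0).mono' hB.vm.aestronglyMeasurable ?_
    filter_upwards [ae_restrict_mem measurableSet_D] with x hx
    rw [Real.norm_eq_abs]
    calc |V x| ≤ C0 / ‖x‖ ^ 4 := hB.vb x hx
      _ = C0 * (1 / ‖x‖ ^ 4) := by ring

theorem low_ok (h : stmtInt) : stmtLow := by
  intro b0 V C0 hB
  have hC0 := C0_nonneg hB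
  refine ⟨∫ x in D, Real.exp (8 * C0) * C0 * (1 / ‖x‖ ^ 4), ?_⟩
  intro w aw bw
  obtain ⟨-, i1, i2⟩ := h b0 V C0 hB w aw
  have hI : IntegrableOn (fun x : E2 => Real.exp (8 * C0) * C0 * (1 / ‖x‖ ^ 4)) D :=
    integrableOn_norm_inv.const_mul _
  have hJ : J b0 V w = (∫ x in D, Real.exp (4 * (b0 x + w x)) *
      ‖gradient b0 x + gradient w x‖ ^ 4) + ∫ x in D, Real.exp (4 * (b0 x + w x)) * V x := by
    unfold J
    rw [← integral_add i1 i2]
    refine integral_congr_ae (ae_of_all _ fun x => ?_)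
    simp only
    ring
  have hneg : -∫ x in D, Real.exp (4 * (b0 x + w x)) * V x ≤
      ∫ x in D, Real.exp (8 * C0) * C0 * (1 / ‖x‖ ^ 4) := by
    rw [← integral_neg]
    refine setIntegral_mono_ae_restrict i2.neg hI ?_
    filter_upwards [ae_restrict_mem measurableSet_D] with x hx
    have h1 := (abs_le.1 (hB.bd x hx)).2
    have h2 := (abs_le.1 (bw x hx)).2
    have h3 : Real.exp (4 * (b0 x + w x)) ≤ Real.exp (8 * C0) :=
      Real.exp_le_exp.2 (by linarith)
    have h4 := hB.vb x hx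
    have h5 : -V x ≤ C0 / ‖x‖ ^ 4 := (neg_le_abs _).trans h4
    have h6 : 0 ≤ C0 / ‖x‖ ^ 4 := by positivity
    calc -(Real.exp (4 * (b0 x + w x)) * V x) = Real.exp (4 * (b0 x + w x)) * (-V x) := by ring
      _ ≤ Real.exp (4 * (b0 x + w x)) * (C0 / ‖x‖ ^ 4) :=
        mul_le_mul_of_nonneg_left h5 (Real.exp_pos _).le
      _ ≤ Real.exp (8 * C0) * (C0 / ‖x‖ ^ 4) := mul_le_mul_of_nonneg_right h3 h6
      _ = _ := by ring
  rw [hJ]
  linarith

end Pool.Agent.Helper33.PL
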