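import Pool.Agent.Helper82.PL.Defs

/-! Hidden convexity of the energy. -/

set_option autoImplicit false

open MeasureTheory Set Filter Topology

namespace Pool.Agent.Helper33.PL

open Pool.Agent.Helper82.PL

/-- The strict convexity inequality for the fourth power of the norm. -/
theorem vec_ineq {E : Type*} [NormedAddCommGroup E] [InnerProductSpace ℝ E] (ξ₁ ξ₂ : E) (s : ℝ)
    (h0 : 0 ≤ s) (h1 : s ≤ 1) :
    ‖s • ξ₁ + (1 - s) • ξ₂‖ ^ 4 + s * (1 - s) / 4 * ‖ξ₁ - ξ₂‖ ^ 4 ≤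
      s * ‖ξ₁‖ ^ 4 + (1 - s) * ‖ξ₂‖ ^ 4 := by
  set ξ := s • ξ₁ + (1 - s) • ξ₂ with hξ
  set η := ξ₁ - ξ₂ with hη
  have e1 : ξ₁ = ξ + (1 - s) • η := by
    rw [hξ, hη]; module
  have e2 : ξ₂ = ξ - s • η := by
    rw [hξ, hη]; module
  have n1 : ‖ξ₁‖ ^ 2 = ‖ξ‖ ^ 2 + 2 * (1 - s) * inner ℝ ξ η + (1 - s) ^ 2 * ‖η‖ ^ 2 := by
    rw [e1, norm_add_sq_real, inner_smul_right, norm_smul, mul_pow, Real.norm_eq_abs, sq_abs]
    ring
  have n2 : ‖ξ₂‖ ^ 2 = ‖ξ‖ ^ 2 - 2 * s * inner ℝ ξ η + s ^ 2 * ‖η‖ ^ 2 := by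
    rw [e2, norm_sub_sq_real, inner_smul_right, norm_smul, mul_pow, Real.norm_eq_abs, sq_abs]
    ring
  have hcs : inner ℝ ξ η ^ 2 ≤ ‖ξ‖ ^ 2 * ‖η‖ ^ 2 := by
    have := abs_real_inner_le_norm ξ η
    calc inner ℝ ξ η ^ 2 = |inner ℝ ξ η| ^ 2 := (sq_abs _).symm
      _ ≤ (‖ξ‖ * ‖η‖) ^ 2 := pow_le_pow_left₀ (abs_nonneg _) this 2
      _ = _ := by ring
  set A := ‖ξ‖ ^ 2 with hA
  set B := ‖η‖ ^ 2 with hB
  set X : ℝ := inner ℝ ξ η with hX
  have p1 : ‖ξ₁‖ ^ 4 = (A + 2 * (1 - s) * X + (1 - s) ^ 2 * B) ^ 2 := by rw [← n1]; ring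
  have p2 : ‖ξ₂‖ ^ 4 = (A - 2 * s * X + s ^ 2 * B) ^ 2 := by rw [← n2]; ring
  have p3 : ‖ξ‖ ^ 4 = A ^ 2 := by rw [hA]; ring
  have p4 : ‖η‖ ^ 4 = B ^ 2 := by rw [hB]; ring
  rw [p1, p2, p3, p4]
  have key : s * (A + 2 * (1 - s) * X + (1 - s) ^ 2 * B) ^ 2 +
      (1 - s) * (A - 2 * s * X + s ^ 2 * B) ^ 2 - (A ^ 2 + s * (1 - s) / 4 * B ^ 2) =
      s * (1 - s) * (2 * (A * B - X ^ 2) + 6 * (X + (1 - 2 * s) / 3 * B) ^ 2 +
        (1 / 12) * (1 - 2 * s) ^ 2 * B ^ 2) := by ring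
  have h2 : 0 ≤ s * (1 - s) := mul_nonneg h0 (by linarith)
  have h3 : 0 ≤ 2 * (A * B - X ^ 2) + 6 * (X + (1 - 2 * s) / 3 * B) ^ 2 +
        (1 / 12) * (1 - 2 * s) ^ 2 * B ^ 2 := by
    have := sub_nonneg.2 hcs
    positivity
  have h4 := mul_nonneg h2 h3
  rw [← key] at h4
  linarith

/-- The weighted version. -/
theorem vec_ineq2 {E : Type*} [NormedAddCommGroup E] [InnerProductSpace ℝ E] (ξ₁ ξ₂ : E)
    (q₁ q₂ m : ℝ) (hm : 0 < m) (h1 : m ≤ q₁) (h2 : m ≤ q₂) :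
    (q₁ + q₂) / 2 * ‖(q₁ / (q₁ + q₂)) • ξ₁ + (q₂ / (q₁ + q₂)) • ξ₂‖ ^ 4 +
      m / 16 * ‖ξ₁ - ξ₂‖ ^ 4 ≤ (q₁ * ‖ξ₁‖ ^ 4 + q₂ * ‖ξ₂‖ ^ 4) / 2 := by
  have p1 : 0 < q₁ := hm.trans_le h1
  have p2 : 0 < q₂ := hm.trans_le h2
  have pS : 0 < q₁ + q₂ := by linarith
  have hs : 1 - q₁ / (q₁ + q₂) = q₂ / (q₁ + q₂) := by field_simp; ring
  have h := vec_ineq ξ₁ ξ₂ (q₁ / (q₁ + q₂)) (by positivity) (by
    rw [div_le_one pS]; linarith)
  rw [hs] at h
  have h3 := mul_le_mul_of_nonneg_left h (by positivity : 0 ≤ (q₁ + q₂) / 2)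
  have h4 : (q₁ + q₂) / 2 * (q₁ / (q₁ + q₂) * ‖ξ₁‖ ^ 4 + q₂ / (q₁ + q₂) * ‖ξ₂‖ ^ 4) =
      (q₁ * ‖ξ₁‖ ^ 4 + q₂ * ‖ξ₂‖ ^ 4) / 2 := by
    field_simp
  have h5 : m / 16 * ‖ξ₁ - ξ₂‖ ^ 4 ≤ (q₁ + q₂) / 2 *
      (q₁ / (q₁ + q₂) * (q₂ / (q₁ + q₂)) / 4 * ‖ξ₁ - ξ₂‖ ^ 4) := by
    have h6 : (q₁ + q₂) / 2 *
      (q₁ / (q₁ + q₂) * (q₂ / (q₁ + q₂)) / 4 * ‖ξ₁ - ξ₂‖ ^ 4) =
      (q₁ * q₂ / (8 * (q₁ + q₂))) * ‖ξ₁ - ξ₂‖ ^ 4 := by
      field_simp
      ring
    rw [h6]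
    refine mul_le_mul_of_nonneg_right ?_ (by positivity)
    rw [div_le_div_iff₀ (by norm_num) (by positivity)]
    nlinarith
  rw [mul_add, h4] at h3
  linarith

/-- the mean of two perturbations -/
noncomputable def mn (a b : ℝ) : ℝ := Real.log ((Real.exp (4 * a) + Real.exp (4 * b)) / 2) / 4

theorem exp_mn (a b : ℝ) : Real.exp (4 * mn a b) = (Real.exp (4 * a) + Real.exp (4 * b)) / 2 := by
  unfold mn
  have h : 0 < (Real.exp (4 * a) + Real.exp (4 * b)) / 2 := by positivity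
  rw [mul_div_cancel₀ _ (by norm_num : (4 : ℝ) ≠ 0), Real.exp_log h]

theorem mn_mono {a b a' b' : ℝ} (h1 : a ≤ a') (h2 : b ≤ b') : mn a b ≤ mn a' b' := by
  unfold mn
  refine div_le_div_of_nonneg_right (Real.log_le_log (by positivity) ?_) (by norm_num)
  have e1 := Real.exp_le_exp.2 (by linarith : 4 * a ≤ 4 * a')
  have e2 := Real.exp_le_exp.2 (by linarith : 4 * b ≤ 4 * b')
  linarith

theorem mn_add (a b δ : ℝ) : mn (a + δ) (b + δ) = mn a b + δ := by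
  have h : Real.exp (4 * mn (a + δ) (b + δ)) = Real.exp (4 * (mn a b + δ)) := by
    rw [exp_mn, mul_add 4 (mn a b), Real.exp_add, exp_mn, mul_add, Real.exp_add, mul_add,
      Real.exp_add]
    ring
  have h2 := Real.exp_injective h
  linarith

theorem mn_zero : mn 0 0 = 0 := by
  unfold mn
  norm_num

theorem mn_lip {a b a' b' δ : ℝ} (h1 : |a - a'| ≤ δ) (h2 : |b - b'| ≤ δ) :
    |mn a b - mn a' b'| ≤ δ := by
  rw [abs_le] at *
  constructor
  · have h3 : mn a' b' ≤ mn (a + δ) (b + δ) := mn_mono (by linarith) (by linarith)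
    rw [mn_add] at h3
    linarith
  · have h3 : mn a b ≤ mn (a' + δ) (b' + δ) := mn_mono (by linarith) (by linarith)
    rw [mn_add] at h3
    linarith

theorem tsupport_mn {w1 w2 : E2 → ℝ} :
    tsupport (fun x => mn (w1 x) (w2 x)) ⊆ tsupport w1 ∪ tsupport w2 := by
  refine closure_minimal ?_ ((isClosed_tsupport w1).union (isClosed_tsupport w2))
  intro x hx
  by_contra hcon
  rw [mem_union, not_or] at hcon
  rw [Function.mem_support] at hx
  apply hx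
  rw [image_eq_zero_of_notMem_tsupport hcon.1, image_eq_zero_of_notMem_tsupport hcon.2, mn_zero]

theorem isAdm_mn {w1 w2 : E2 → ℝ} (h1 : IsAdm w1) (h2 : IsAdm w2) :
    IsAdm (fun x => mn (w1 x) (w2 x)) := by
  obtain ⟨⟨K1, hK1⟩, hc1, ht1⟩ := h1
  obtain ⟨⟨K2, hK2⟩, hc2, ht2⟩ := h2
  refine ⟨⟨max K1 K2, ?_⟩, ?_, ?_⟩
  · refine LipschitzWith.of_dist_le_mul fun x y => ?_
    rw [Real.dist_eq]
    refine mn_lip ?_ ?_
    · rw [← Real.dist_eq]
      refine (hK1.dist_le_mul x y).trans (mul_le_mul_of_nonneg_right ?_ dist_nonneg)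
      exact_mod_cast le_max_left K1 K2
    · rw [← Real.dist_eq]
      refine (hK2.dist_le_mul x y).trans (mul_le_mul_of_nonneg_right ?_ dist_nonneg)
      exact_mod_cast le_max_right K1 K2
  · exact (hc1.isCompact.union hc2.isCompact).of_isClosed_subset (isClosed_tsupport _) tsupport_mn
  · exact tsupport_mn.trans (union_subset ht1 ht2)

theorem gradient_mn {w1 w2 : E2 → ℝ} {x : E2} (h1 : DifferentiableAt ℝ w1 x)
    (h2 : DifferentiableAt ℝ w2 x) :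
    gradient (fun x => mn (w1 x) (w2 x)) x =
      (Real.exp (4 * w1 x) / (Real.exp (4 * w1 x) + Real.exp (4 * w2 x))) • gradient w1 x +
      (Real.exp (4 * w2 x) / (Real.exp (4 * w1 x) + Real.exp (4 * w2 x))) • gradient w2 x := by
  have e1 := (h1.hasFDerivAt.const_mul (4 : ℝ)).exp
  have e2 := (h2.hasFDerivAt.const_mul (4 : ℝ)).exp
  have e3 := (HasFDerivAt.fun_add e1 e2).mul_const (2 : ℝ)⁻¹
  have hpos : (Real.exp (4 * w1 x) + Real.exp (4 * w2 x)) * (2 : ℝ)⁻¹ ≠ 0 := by positivity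
  have e4 := (e3.log hpos).mul_const (4 : ℝ)⁻¹
  have e5 : (fun x => mn (w1 x) (w2 x)) =
      fun y => Real.log ((Real.exp (4 * w1 y) + Real.exp (4 * w2 y)) * (2 : ℝ)⁻¹) * (4 : ℝ)⁻¹ := by
    funext y
    unfold mn
    rw [div_eq_mul_inv, div_eq_mul_inv]
  rw [e5]
  unfold gradient
  rw [e4.fderiv]
  have hS : Real.exp (4 * w1 x) + Real.exp (4 * w2 x) ≠ 0 := by positivity
  simp only [map_smul, map_add, smul_add, smul_smul]
  congr 1
  · congr 1
    field_simp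
  · congr 1
    field_simp

theorem gradient_zero_of_notMem {w : E2 → ℝ} {x : E2} (hx : x ∉ tsupport w) :
    gradient w x = 0 := by
  have h : w =ᶠ[𝓝 x] fun _ => 0 := notMem_tsupport_iff_eventuallyEq.1 hx
  unfold gradient
  rw [h.fderiv_eq, fderiv_const_apply, map_zero]

theorem gradient_sub_apply {w1 w2 : E2 → ℝ} {x : E2} (h1 : DifferentiableAt ℝ w1 x)
    (h2 : DifferentiableAt ℝ w2 x) :
    gradient (fun x => w1 x - w2 x) x = gradient w1 x - gradient w2 x := by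
  unfold gradient
  rw [fderiv_fun_sub h1 h2, map_sub]

theorem isAdm_sub {w1 w2 : E2 → ℝ} (h1 : IsAdm w1) (h2 : IsAdm w2) :
    IsAdm (fun x => w1 x - w2 x) := by
  obtain ⟨⟨K1, hK1⟩, hc1, ht1⟩ := h1
  obtain ⟨⟨K2, hK2⟩, hc2, ht2⟩ := h2
  have hs : tsupport (fun x => w1 x - w2 x) ⊆ tsupport w1 ∪ tsupport w2 := by
    refine closure_minimal ?_ ((isClosed_tsupport w1).union (isClosed_tsupport w2))
    intro x hx
    by_contra hcon
    rw [mem_union, not_or] at hcon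
    rw [Function.mem_support] at hx
    apply hx
    rw [image_eq_zero_of_notMem_tsupport hcon.1, image_eq_zero_of_notMem_tsupport hcon.2, sub_zero]
  exact ⟨⟨K1 + K2, hK1.sub hK2⟩,
    (hc1.isCompact.union hc2.isCompact).of_isClosed_subset (isClosed_tsupport _) hs,
    hs.trans (union_subset ht1 ht2)⟩

theorem isOpen_D : IsOpen D := isOpen_lt continuous_const continuous_norm

theorem measurableSet_D : MeasurableSet D := isOpen_D.measurableSet

theorem mid_ok (h : stmtInt) : stmtMid := by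
  intro b0 V C0 hB
  refine ⟨Real.exp (-(8 * C0)) / 16, by positivity, ?_⟩
  intro w1 w2 a1 a2 bd1 bd2
  refine ⟨fun x => mn (w1 x) (w2 x), isAdm_mn a1 a2, ?_⟩
  set w : E2 → ℝ := fun x => mn (w1 x) (w2 x) with hw
  have aw : IsAdm w := isAdm_mn a1 a2
  obtain ⟨-, i1, i1'⟩ := h b0 V C0 hB w1 a1
  obtain ⟨-, i2, i2'⟩ := h b0 V C0 hB w2 a2
  obtain ⟨-, iw, iw'⟩ := h b0 V C0 hB w aw
  obtain ⟨id, -, -⟩ := h b0 V C0 hB _ (isAdm_sub a1 a2)
  obtain ⟨K1, hK1⟩ := a1.1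
  obtain ⟨K2, hK2⟩ := a2.1
  have d1 := hK1.ae_differentiableAt (μ := (volume : Measure E2))
  have d2 := hK2.ae_differentiableAt (μ := (volume : Measure E2))
  have hdiff : Integrable (fun x => ‖gradient w1 x - gradient w2 x‖ ^ 4) := by
    refine id.congr ?_
    filter_upwards [d1, d2] with x h1 h2
    rw [gradient_sub_apply h1 h2]
  have hout : ∫ x, ‖gradient w1 x - gradient w2 x‖ ^ 4 =
      ∫ x in D, ‖gradient w1 x - gradient w2 x‖ ^ 4 := by
    rw [eq_comm]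
    refine setIntegral_eq_integral_of_forall_compl_eq_zero fun x hx => ?_
    rw [gradient_zero_of_notMem fun hx' => hx (a1.2.2 hx'),
      gradient_zero_of_notMem fun hx' => hx (a2.2.2 hx')]
    simp
  rw [hout]
  unfold J
  -- combine
  have j1 : IntegrableOn (fun x => Real.exp (4 * (b0 x + w1 x)) *
      (‖gradient b0 x + gradient w1 x‖ ^ 4 + V x)) D := by
    refine (i1.add i1').congr (ae_of_all _ fun x => ?_)
    simp only [Pi.add_apply]
    ring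
  have j2 : IntegrableOn (fun x => Real.exp (4 * (b0 x + w2 x)) *
      (‖gradient b0 x + gradient w2 x‖ ^ 4 + V x)) D := by
    refine (i2.add i2').congr (ae_of_all _ fun x => ?_)
    simp only [Pi.add_apply]
    ring
  have jw : IntegrableOn (fun x => Real.exp (4 * (b0 x + w x)) *
      (‖gradient b0 x + gradient w x‖ ^ 4 + V x)) D := by
    refine (iw.add iw').congr (ae_of_all _ fun x => ?_)
    simp only [Pi.add_apply]
    ring
  have hd : IntegrableOn (fun x => Real.exp (-(8 * C0)) / 16 *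
      ‖gradient w1 x - gradient w2 x‖ ^ 4) D := (hdiff.const_mul _).integrableOn
  rw [← integral_const_mul, ← integral_add jw hd, ← integral_add j1 j2, ← integral_div]
  refine setIntegral_mono_ae_restrict (jw.add hd) ((j1.add j2).div_const 2) ?_
  have d1' := ae_restrict_of_ae (s := D) d1
  have d2' := ae_restrict_of_ae (s := D) d2
  filter_upwards [d1', d2', ae_restrict_mem measurableSet_D] with x h1 h2 hx
  set q₁ := Real.exp (4 * (b0 x + w1 x)) with hq₁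
  set q₂ := Real.exp (4 * (b0 x + w2 x)) with hq₂
  have hb := abs_le.1 (hB.bd x hx)
  have hb1 := abs_le.1 (bd1 x hx)
  have hb2 := abs_le.1 (bd2 x hx)
  have m1 : Real.exp (-(8 * C0)) ≤ q₁ := Real.exp_le_exp.2 (by linarith [hb.1, hb1.1])
  have m2 : Real.exp (-(8 * C0)) ≤ q₂ := Real.exp_le_exp.2 (by linarith [hb.1, hb2.1])
  have key := vec_ineq2 (gradient b0 x + gradient w1 x) (gradient b0 x + gradient w2 x) q₁ q₂
    (Real.exp (-(8 * C0))) (Real.exp_pos _) m1 m2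
  have hq : Real.exp (4 * (b0 x + w x)) = (q₁ + q₂) / 2 := by
    rw [hq₁, hq₂, hw]
    simp only [mul_add, Real.exp_add]
    rw [exp_mn]
    ring
  have hE : Real.exp (4 * b0 x) ≠ 0 := (Real.exp_pos _).ne'
  have hr1 : q₁ / (q₁ + q₂) = Real.exp (4 * w1 x) / (Real.exp (4 * w1 x) + Real.exp (4 * w2 x)) := by
    rw [hq₁, hq₂]
    simp only [mul_add, Real.exp_add]
    rw [← mul_add, mul_div_mul_left _ _ hE]
  have hr2 : q₂ / (q₁ + q₂) = Real.exp (4 * w2 x) / (Real.exp (4 * w1 x) + Real.exp (4 * w2 x)) := by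
    rw [hq₁, hq₂]
    simp only [mul_add, Real.exp_add]
    rw [← mul_add, mul_div_mul_left _ _ hE]
  have hg : gradient b0 x + gradient w x =
      (q₁ / (q₁ + q₂)) • (gradient b0 x + gradient w1 x) +
        (q₂ / (q₁ + q₂)) • (gradient b0 x + gradient w2 x) := by
    rw [hw, gradient_mn h1 h2, ← hr1, ← hr2]
    have hs : q₁ / (q₁ + q₂) + q₂ / (q₁ + q₂) = 1 := by
      have : q₁ + q₂ ≠ 0 := by positivity
      field_simp
    calc gradient b0 x + ((q₁ / (q₁ + q₂)) • gradient w1 x + (q₂ / (q₁ + q₂)) • gradient w2 x)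
        = (q₁ / (q₁ + q₂) + q₂ / (q₁ + q₂)) • gradient b0 x +
          ((q₁ / (q₁ + q₂)) • gradient w1 x + (q₂ / (q₁ + q₂)) • gradient w2 x) := by
            rw [hs, one_smul]
      _ = _ := by module
  have hη : gradient b0 x + gradient w1 x - (gradient b0 x + gradient w2 x) =
      gradient w1 x - gradient w2 x := by abel
  rw [hη, ← hg] at key
  rw [hq]
  linarith

end Pool.Agent.Helper33.PL
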